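import Pool.Agent.X252.TPF

open scoped Classical

namespace Pool.Agent.Results.MP_0c8ca5_al.ApproximateWeights

open Pool.Agent.Y63.NV Pool.Agent.X252.TP

/-- Let `X` be a class of groups closed under isomorphisms, subgroups, quotients by normal
`p`-subgroups and direct squares. The following are equivalent: Navarro's equality holds for all
invariant blocks of all normal subgroups `G` of finite groups `Γ` such that `G` contains a normal
subgroup `N` of `Γ` in `X` for which `Γ/N` is a `p`-group; it holds for these up to factors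
`|Γ|^{o(1)}`; the blockwise Alperin weight conjecture holds up to factors `|H|^{o(1)}` for the finite
groups `H` in `X` without normal subgroups of index `p` and without non-trivial normal
`p`-subgroups. -/
theorem result (p : ℕ) [Fact p.Prime] (F : Type) [Field F] [IsAlgClosed F] [CharP F p]
    (red : integralClosure ℤ ℂ →+* F) (X : ∀ (H : Type) [Group H], Prop) (hX : Closed p X)
    (hS : ∀ (H : Type) [Group H] [Finite H], X H → X (H × H)) :
    ((∀ ε : ℝ, 0 < ε → ∃ C : ℝ, ∀ (Γ : Type) [Group Γ] [Finite Γ] (N G : Subgroup Γ) [N.Normal]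
        [G.Normal], N ≤ G → X N → IsPGroup p (Γ ⧸ N) → NavarroUpTo p red C ε G) ↔
      ∀ (Γ : Type) [Group Γ] [Finite Γ] (N G : Subgroup Γ) [N.Normal] [G.Normal], N ≤ G → X N →
        IsPGroup p (Γ ⧸ N) → NavarroTheta p red G) ∧
    ((∀ ε : ℝ, 0 < ε → ∃ C : ℝ,
        Bd F (fun H _ => X H ∧ Reduced p H) (fun _ _ => numIrrBlock) (fun _ _ => nwt p red) C ε ∧
        Bd F (fun H _ => X H ∧ Reduced p H) (fun _ _ => nwt p red) (fun _ _ => numIrrBlock) C ε) ↔
      ∀ (Γ : Type) [Group Γ] [Finite Γ] (N G : Subgroup Γ) [N.Normal] [G.Normal], N ≤ G → X N →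
        IsPGroup p (Γ ⧸ N) → NavarroTheta p red G) :=
  ⟨navarro_approx red X hX hS, navarro_of_approx red X hX hS⟩

end Pool.Agent.Results.MP_0c8ca5_al.ApproximateWeights
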