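import Pool.Agent.X282.KRB.Avg7

open scoped Classical

namespace Pool.Agent.Results.MP_0c8ca5_al.BurnsideFormula

open Pool.Agent.Y63.NV
open Pool.Agent.X282.KRB (dn numNav numWts)

/-- Let `G` be a normal subgroup of the finite group `Γ` with `Γ/G` a `p`-group and `B` a
`Γ`-invariant block of `G`. For a subgroup `K ⊇ G` of `Γ` let `l_K(B)` and `w_K(B)` be the two sides
of Navarro's equality for `G ⊴ K` and `B`.

(1) For all subgroups `H ⊇ G` of `Γ` and all `p`-subgroups `Q` of `H`, the number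
`|N_H(Q) : Q| |dz(N_H(Q)/Q | B)|` is the sum of the numbers `|N_Γ(R) : R| |dz(N_Γ(R)/R | B)|` over
the `p`-subgroups `R` of `Γ` with `R ∩ H = Q`.

(2) For the block `B₁` of `Γ` covering `B` one has `∑_{γ ∈ Γ} l_{G⟨γ⟩}(B) = |Γ| l(B₁)` and
`∑_{γ ∈ Γ} w_{G⟨γ⟩}(B) = |Γ| w(B₁)`, where `w(B₁)` is the number of classes of weights of `B₁`.
In particular the blockwise weight conjecture holds for `B₁` if Navarro's equality holds for `B` and
all `K` with `K/G` cyclic. -/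
theorem result (p : ℕ) [Fact p.Prime] (F : Type) [Field F] [IsAlgClosed F] [CharP F p]
    (red : integralClosure ℤ ℂ →+* F) (Γ : Type) [Group Γ] [Finite Γ] (G : Subgroup Γ) [G.Normal]
    (hG : IsPGroup p (Γ ⧸ G)) (B : (G → F) → F) (hB : IsBlock B) (hI : IsInvBlock G B) :
    (∀ (H : Subgroup Γ) (hGH : G ≤ H) (Q : Subgroup H), IsPGroup p Q →
      ((Nat.card (Subgroup.normalizer (Q : Set H)) : ℚ) / Nat.card Q) *
        numDz p red (G.subgroupOf H) Q (dn hGH B) =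
      ∑ᶠ R : {R : Subgroup Γ // IsPGroup p R ∧ R.subgroupOf H = Q},
        ((Nat.card (Subgroup.normalizer (R.1 : Set Γ)) : ℚ) / Nat.card R.1) *
          numDz p red G R.1 B) ∧
    ∀ B₁ : (Γ → F) → F, IsBlock B₁ → (∀ z : Γ → F, InZ G z → B₁ z = B (fun x => z x)) →
      (∑ᶠ γ : Γ, numIBr (G.subgroupOf (G ⊔ Subgroup.zpowers γ))
        (dn (le_sup_left : G ≤ G ⊔ Subgroup.zpowers γ) B) = Nat.card Γ * numIrrBlock B₁) ∧
      (∑ᶠ γ : Γ, numNav p red (G.subgroupOf (G ⊔ Subgroup.zpowers γ))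
        (dn (le_sup_left : G ≤ G ⊔ Subgroup.zpowers γ) B) = Nat.card Γ * numWts p red B₁) ∧
      ((∀ γ : Γ, numIBr (G.subgroupOf (G ⊔ Subgroup.zpowers γ))
          (dn (le_sup_left : G ≤ G ⊔ Subgroup.zpowers γ) B) =
        numNav p red (G.subgroupOf (G ⊔ Subgroup.zpowers γ))
          (dn (le_sup_left : G ≤ G ⊔ Subgroup.zpowers γ) B)) →
        numIrrBlock B₁ = numWts p red B₁) := by
  refine ⟨fun H hGH Q hQ => Pool.Agent.X282.KRB.localf red G hG hB hI hGH Q hQ, ?_⟩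
  intro B₁ hB₁ hcov
  have : Fintype Γ := Fintype.ofFinite Γ
  obtain ⟨h1, h2⟩ := Pool.Agent.X282.KRB.burnside red G hG hB hI hB₁ hcov
  rw [finsum_eq_sum_of_fintype, finsum_eq_sum_of_fintype]
  refine ⟨h1, h2, fun h => ?_⟩
  rw [Finset.sum_congr rfl fun γ _ => h γ, h2] at h1
  exact (Nat.eq_of_mul_eq_mul_left Nat.card_pos h1).symm

end Pool.Agent.Results.MP_0c8ca5_al.BurnsideFormula
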