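import Pool.Agent.X252.NVW

open scoped Classical

namespace Pool.Agent.Results.MP_0c8ca5_al.FrattiniReduction

open Pool.Agent.Y63.NV Pool.Agent.X252.NVF

/-- Let `G ≤ U` be normal subgroups of `Γ` such that `Γ/G` is a `p`-group and `U/G` lies in the
Frattini subgroup of `Γ/G`. Then the `Γ`-invariant blocks of `G` and of `U` correspond by covering,
and for corresponding blocks `B`, `C` both sides of Navarro's equality agree for `(G, Γ, B)` and
`(U, Γ, C)`, the weight sides term by term. In particular Navarro's equality holds for `(G, Γ)` if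
and only if it holds for `(U, Γ)`. -/
theorem result (p : ℕ) [Fact p.Prime] (F : Type) [Field F] [IsAlgClosed F] [CharP F p]
    (red : integralClosure ℤ ℂ →+* F) (Γ : Type) [Group Γ] [Finite Γ] (G U : Subgroup Γ)
    [G.Normal] [U.Normal] (hp : IsPGroup p (Γ ⧸ G)) (hGU : G ≤ U)
    (hU : U.map (QuotientGroup.mk' G) ≤ frattini (Γ ⧸ G)) :
    (∀ B : (G → F) → F, IsBlock B → IsInvBlock G B → ∃ C : (U → F) → F, IsBlock C ∧
      IsInvBlock U C ∧ Covers G U C B) ∧
    (∀ C : (U → F) → F, IsBlock C → IsInvBlock U C → ∃ B : (G → F) → F, IsBlock B ∧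
      IsInvBlock G B ∧ Covers G U C B) ∧
    (∀ (B : (G → F) → F) (C : (U → F) → F), IsBlock B → IsInvBlock G B → IsBlock C →
      Covers G U C B →
      numIBr G B = numIBr U C ∧
      (∀ Q : Subgroup Γ, IsPGroup p Q → ((U ⊔ Q = ⊤ ↔ G ⊔ Q = ⊤) ∧
        numDz p red G Q B = numDz p red U Q C)) ∧
      thetaDefect p red G B = thetaDefect p red U C) ∧
    (NavarroTheta p red G ↔ NavarroTheta p red U) :=
  frattini_reduction red hp hGU hU

end Pool.Agent.Results.MP_0c8ca5_al.FrattiniReduction
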