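import Pool.Agent.X252.NIF

open scoped Classical

namespace Pool.Agent.Results.MP_0c8ca5_al.IntermediateSubgroups

open Pool.Agent.Y63.NV Pool.Agent.X252.NVF Pool.Agent.X252.NI

/-- Let `G` be a normal subgroup of the finite group `Γ` with `Γ/G` a `p`-group and `B` a
`Γ`-invariant block of `G`. For `G ≤ K ≤ Γ` let `l(K)`, `w(K)` be the two sides of Navarro's
equality for `(G, K, B)`. There are non-negative functions `a`, `b` on the subgroups of `Γ` such
that `l(K)`, `w(K)` are the sums of `a(L)`, `b(L)` over `L ⊇ K`, and such that for all normal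
subgroups `U ⊇ G` of `Γ` and the block `C` of `U` covering `B` the two sides of Navarro's equality
for `(U, Γ, C)`, multiplied by `|Γ|`, are the sums of `|L| a(L)`, `|L| b(L)` over all `L` with
`U L = Γ`. If `Γ/U` is cyclic, generated by `tU`, they are the averages of `l(G⟨g⟩)`, `w(G⟨g⟩)` over
the coset `tU`. Navarro's equality for `(U, Γ, C)` follows from the equality for `(G, K, B)` for all
`K` with `U K = Γ`. -/
theorem result (p : ℕ) [Fact p.Prime] (F : Type) [Field F] [IsAlgClosed F] [CharP F p]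
    (red : integralClosure ℤ ℂ →+* F) (Γ : Type) [Group Γ] [Finite Γ] (G : Subgroup Γ) [G.Normal]
    (hp : IsPGroup p (Γ ⧸ G)) (B : (G → F) → F) (hB : IsBlock B) (hBi : IsInvBlock G B) :
    (∃ a b : Subgroup Γ → ℚ,
      (∀ K, G ≤ K → (numIBr (G.subgroupOf K) (blockIn G K B) : ℚ) =
          (∑ᶠ L : Subgroup Γ, if K ≤ L then a L else 0) ∧
        (thetaSum p red (G.subgroupOf K) (blockIn G K B) : ℚ) =
          ∑ᶠ L : Subgroup Γ, if K ≤ L then b L else 0) ∧
      (∀ L, 0 ≤ a L ∧ 0 ≤ b L ∧ (¬ G ≤ L → a L = 0 ∧ b L = 0)) ∧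
      ∀ (U : Subgroup Γ) [U.Normal], G ≤ U → ∀ C : (U → F) → F, IsBlock C → Covers G U C B →
        (Nat.card Γ : ℚ) * numIBr U C =
          (∑ᶠ L : Subgroup Γ, if U ⊔ L = ⊤ then (Nat.card L : ℚ) * a L else 0) ∧
        (Nat.card Γ : ℚ) * thetaSum p red U C =
          ∑ᶠ L : Subgroup Γ, if U ⊔ L = ⊤ then (Nat.card L : ℚ) * b L else 0) ∧
    ∀ (U : Subgroup Γ) [U.Normal], G ≤ U → ∀ C : (U → F) → F, IsBlock C → Covers G U C B →
      (∀ t : Γ, U ⊔ Subgroup.zpowers t = ⊤ →
        Nat.card U * numIBr U C =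
          (∑ᶠ u : U, numIBr (G.subgroupOf (G ⊔ Subgroup.zpowers (t * (u : Γ))))
            (blockIn G (G ⊔ Subgroup.zpowers (t * (u : Γ))) B)) ∧
        Nat.card U * thetaSum p red U C =
          ∑ᶠ u : U, thetaSum p red (G.subgroupOf (G ⊔ Subgroup.zpowers (t * (u : Γ))))
            (blockIn G (G ⊔ Subgroup.zpowers (t * (u : Γ))) B)) ∧
      ((∀ K, G ≤ K → U ⊔ K = ⊤ → numIBr (G.subgroupOf K) (blockIn G K B) =
          thetaSum p red (G.subgroupOf K) (blockIn G K B)) →
        numIBr U C = thetaSum p red U C) :=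
  final2 red hp hB hBi

end Pool.Agent.Results.MP_0c8ca5_al.IntermediateSubgroups
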